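import Mathlib

set_option autoImplicit false

/-!
Almost disjoint families on `ℕ` and bounded functionals on `ℓ^∞` vanishing on finitely supported
sequences.
-/

namespace Pool.Agent.H744R2

open Set

/-- The code of the initial segment of length `n` of a `0`-`1`-sequence. -/
def seg (α : ℕ → Bool) (n : ℕ) : ℕ := Encodable.encode ((List.range n).map α)

/-- The branch through `α`. -/
def branch (α : ℕ → Bool) : Set ℕ := range (seg α)

theorem seg_inj (α : ℕ → Bool) : Function.Injective (seg α) := by
  intro m n h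
  have := Encodable.encode_injective h
  have h2 := congrArg List.length this
  simpa using h2

theorem branch_infinite (α : ℕ → Bool) : (branch α).Infinite :=
  infinite_range_of_injective (seg_inj α)

theorem branch_inter_finite {α β : ℕ → Bool} (h : α ≠ β) : (branch α ∩ branch β).Finite := by
  obtain ⟨d, hd⟩ := Function.ne_iff.1 h
  refine ((finite_Iic d).image (seg α)).subset ?_
  rintro x ⟨⟨n, rfl⟩, ⟨m, hm⟩⟩
  refine ⟨n, ?_, rfl⟩
  have h1 := Encodable.encode_injective hm
  have h2 := congrArg List.length h1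
  simp only [List.length_map, List.length_range] at h2
  subst h2
  by_contra hn
  simp only [mem_Iic, not_le] at hn
  have h3 := List.map_inj_left.1 h1 d (List.mem_range.2 hn)
  exact hd h3.symm

open Classical in
/-- Indicator function of a set, as a bounded function on a discrete space. -/
noncomputable def ind {α : Type} [TopologicalSpace α] [DiscreteTopology α] (S : Set α) :
    BoundedContinuousFunction α ℂ :=
  BoundedContinuousFunction.ofNormedAddCommGroupDiscrete (fun x => if x ∈ S then 1 else 0) 1
    (fun x => by split_ifs <;> simp)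

open Classical in
theorem ind_apply {α : Type} [TopologicalSpace α] [DiscreteTopology α] (S : Set α) (x : α) :
    ind S x = if x ∈ S then 1 else 0 := rfl

theorem ind_of_mem {α : Type} [TopologicalSpace α] [DiscreteTopology α] {S : Set α} {x : α}
    (h : x ∈ S) : ind S x = 1 := by simp [ind_apply, h]

theorem ind_of_notMem {α : Type} [TopologicalSpace α] [DiscreteTopology α] {S : Set α} {x : α}
    (h : x ∉ S) : ind S x = 0 := by simp [ind_apply, h]

abbrev LL := BoundedContinuousFunction ℕ ℂ

theorem ind_finite_eq_sum {S : Set ℕ} (hS : S.Finite) :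
    (ind S : LL) = ∑ m ∈ hS.toFinset, ind {m} := by
  ext x
  rw [BoundedContinuousFunction.sum_apply]
  by_cases hx : x ∈ S
  · rw [ind_of_mem hx, Finset.sum_eq_single x]
    · rw [ind_of_mem (mem_singleton x)]
    · intro b _ hb
      exact ind_of_notMem (by simpa using hb.symm)
    · intro h; exact absurd (hS.mem_toFinset.2 hx) h
  · rw [ind_of_notMem hx, Finset.sum_eq_zero]
    intro b hb
    refine ind_of_notMem ?_
    rintro rfl
    exact hx (hS.mem_toFinset.1 hb)

theorem map_ind_finite {lam : LL →L[ℂ] ℂ} (h0 : ∀ m : ℕ, lam (ind {m}) = 0) {S : Set ℕ}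
    (hS : S.Finite) : lam (ind S) = 0 := by
  rw [ind_finite_eq_sum hS, map_sum]
  exact Finset.sum_eq_zero fun m _ => h0 m

theorem ind_diff_add {S F : Set ℕ} : (ind (S \ F) : LL) + ind (S ∩ F) = ind S := by
  ext x
  simp only [BoundedContinuousFunction.coe_add, Pi.add_apply, ind_apply, mem_sdiff, mem_inter_iff]
  by_cases h1 : x ∈ S <;> by_cases h2 : x ∈ F <;> simp [h1, h2]

/-- A functional vanishing on the unit vectors is large on only finitely many branches. -/
theorem finite_large {lam : LL →L[ℂ] ℂ} (h0 : ∀ m : ℕ, lam (ind {m}) = 0) {ε : ℝ} (hε : 0 < ε) :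
    {α : ℕ → Bool | ε ≤ ‖lam (ind (branch α))‖}.Finite := by
  classical
  by_contra hinf
  have hinf' : {α : ℕ → Bool | ε ≤ ‖lam (ind (branch α))‖}.Infinite := hinf
  obtain ⟨N, hN⟩ := exists_nat_gt (‖lam‖ / ε)
  obtain ⟨F, hF, hFc⟩ := hinf'.exists_subset_card_eq N
  -- finite exceptional set
  let Z : Set ℕ := ⋃ α ∈ F, ⋃ β ∈ F, if α = β then ∅ else branch α ∩ branch β
  have hZ : Z.Finite := by
    refine Set.Finite.biUnion F.finite_toSet fun α _ => ?_
    refine Set.Finite.biUnion F.finite_toSet fun β _ => ?_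
    split_ifs with h
    · exact finite_empty
    · exact branch_inter_finite h
  -- signs
  let θ : (ℕ → Bool) → ℂ := fun α =>
    (starRingEnd ℂ) (lam (ind (branch α))) / (‖lam (ind (branch α))‖ : ℂ)
  have hpos : ∀ α ∈ F, 0 < ‖lam (ind (branch α))‖ := fun α hα => lt_of_lt_of_le hε (hF hα)
  have hθ : ∀ α ∈ F, ‖θ α‖ = 1 := by
    intro α hα
    have := hpos α hα
    simp only [θ, norm_div, RCLike.norm_conj, Complex.norm_real, norm_norm]
    exact div_self this.ne'
  have hθl : ∀ α ∈ F, θ α * lam (ind (branch α)) = (‖lam (ind (branch α))‖ : ℂ) := by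
    intro α hα
    have := hpos α hα
    have h2 : ((‖lam (ind (branch α))‖ : ℝ) : ℂ) ≠ 0 := by exact_mod_cast this.ne'
    simp only [θ]
    rw [div_mul_eq_mul_div, div_eq_iff h2, ← Complex.normSq_eq_conj_mul_self,
      Complex.normSq_eq_norm_sq]
    push_cast
    ring
  let f : LL := ∑ α ∈ F, θ α • ind (branch α \ Z)
  have hf : ‖f‖ ≤ 1 := by
    rw [BoundedContinuousFunction.norm_le zero_le_one]
    intro x
    simp only [f, BoundedContinuousFunction.sum_apply]
    by_cases hx : ∃ α ∈ F, x ∈ branch α \ Z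
    · obtain ⟨α, hα, hxα⟩ := hx
      rw [Finset.sum_eq_single α]
      · rw [BoundedContinuousFunction.coe_smul]
        simp only [ind_of_mem hxα, smul_eq_mul, mul_one, hθ α hα, le_refl]
      · intro β hβ hne
        have hxβ : x ∉ branch β \ Z := by
          intro hxβ
          apply hxα.2
          refine mem_biUnion hα (mem_biUnion hβ ?_)
          rw [if_neg (Ne.symm hne)]
          exact ⟨hxα.1, hxβ.1⟩
        rw [BoundedContinuousFunction.coe_smul]
        simp only [ind_of_notMem hxβ, smul_zero]
      · intro h; exact absurd hα h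
    · push Not at hx
      rw [Finset.sum_eq_zero]
      · simp
      · intro α hα
        rw [BoundedContinuousFunction.coe_smul]
        simp only [ind_of_notMem (hx α hα), smul_zero]
  have hlf : lam f = ∑ α ∈ F, (‖lam (ind (branch α))‖ : ℂ) := by
    simp only [f, map_sum, map_smul, smul_eq_mul]
    refine Finset.sum_congr rfl fun α hα => ?_
    rw [← hθl α hα]
    congr 1
    have h1 : lam (ind (branch α)) = lam (ind (branch α \ Z)) + lam (ind (branch α ∩ Z)) := by
      rw [← map_add, ind_diff_add]
    rw [h1, map_ind_finite h0 (hZ.subset inter_subset_right), add_zero]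
  have h3 : (N : ℝ) * ε ≤ ‖lam f‖ := by
    rw [hlf]
    have : ‖∑ α ∈ F, ((‖lam (ind (branch α))‖ : ℝ) : ℂ)‖ = ∑ α ∈ F, ‖lam (ind (branch α))‖ := by
      rw [← Complex.ofReal_sum, Complex.norm_real, Real.norm_of_nonneg]
      exact Finset.sum_nonneg fun _ _ => norm_nonneg _
    rw [this, ← hFc, ← nsmul_eq_mul]
    exact Finset.card_nsmul_le_sum F _ _ fun α hα => hF hα
  have h4 : ‖lam f‖ ≤ ‖lam‖ := by
    calc ‖lam f‖ ≤ ‖lam‖ * ‖f‖ := lam.le_opNorm f
      _ ≤ ‖lam‖ * 1 := by gcongr
      _ = ‖lam‖ := mul_one _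
  rw [div_lt_iff₀ hε] at hN
  linarith

theorem countable_nonzero {lam : LL →L[ℂ] ℂ} (h0 : ∀ m : ℕ, lam (ind {m}) = 0) :
    {α : ℕ → Bool | lam (ind (branch α)) ≠ 0}.Countable := by
  have : {α : ℕ → Bool | lam (ind (branch α)) ≠ 0} ⊆
      ⋃ n : ℕ, {α : ℕ → Bool | 1 / ((n : ℝ) + 1) ≤ ‖lam (ind (branch α))‖} := by
    intro α hα
    obtain ⟨n, hn⟩ := exists_nat_one_div_lt (norm_pos_iff.2 hα)
    exact mem_iUnion.2 ⟨n, hn.le⟩
  exact (countable_iUnion fun n => (finite_large h0 (by positivity)).countable).mono this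

/-- Given countably many functionals vanishing on unit vectors, there is one branch on whose
indicator function they all vanish. -/
theorem exists_branch {C : Type} [Countable C] (lam : C → (LL →L[ℂ] ℂ))
    (h0 : ∀ c, ∀ m : ℕ, lam c (ind {m}) = 0) :
    ∃ α : ℕ → Bool, ∀ c, lam c (ind (branch α)) = 0 := by
  by_contra hcon
  push Not at hcon
  have h1 : (Set.univ : Set (ℕ → Bool)) ⊆ ⋃ c, {α : ℕ → Bool | lam c (ind (branch α)) ≠ 0} := by
    intro α _
    obtain ⟨c, hc⟩ := hcon α
    exact mem_iUnion.2 ⟨c, hc⟩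
  have h2 : (Set.univ : Set (ℕ → Bool)).Countable :=
    (countable_iUnion fun c => countable_nonzero (h0 c)).mono h1
  have h4 : Cardinal.mk (ℕ → Bool) = 2 ^ Cardinal.aleph0 := by simp
  have h3 : Cardinal.mk (ℕ → Bool) ≤ Cardinal.aleph0 := by
    rw [Set.countable_univ_iff] at h2
    exact Cardinal.mk_le_aleph0 (α := ℕ → Bool)
  rw [h4] at h3
  exact absurd (Cardinal.cantor Cardinal.aleph0) (not_lt.2 h3)

/-- Multilinear version. -/
theorem exists_branches (k : ℕ) : ∀ {C : Type} [Countable C]
    (lam : C → ContinuousMultilinearMap ℂ (fun _ : Fin k => LL) ℂ)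
    (_ : ∀ c, ∀ m : Fin k → ℕ, lam c (fun i => ind {m i}) = 0),
    ∃ α : Fin k → (ℕ → Bool), ∀ c, lam c (fun i => ind (branch (α i))) = 0 := by
  induction k with
  | zero =>
    intro C _ lam h0
    refine ⟨fun i => i.elim0, fun c => ?_⟩
    have := h0 c (fun i => i.elim0)
    have e : (fun i : Fin 0 => (ind (branch ((fun i : Fin 0 => i.elim0 : Fin 0 → (ℕ → Bool)) i)) : LL)) =
        fun i : Fin 0 => ind {(fun i : Fin 0 => i.elim0 : Fin 0 → ℕ) i} := funext fun i => i.elim0
    rw [e]
    exact this
  | succ k ih =>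
    intro C _ lam h0
    obtain ⟨α0, hα0⟩ := exists_branch (C := C × (Fin k → ℕ))
      (fun cm => (ContinuousMultilinearMap.apply ℂ (fun _ : Fin k => LL) ℂ
        (fun i => ind {cm.2 i})).comp ((lam cm.1).curryLeft)) (by
          rintro ⟨c, m⟩ a
          have := h0 c (Fin.cons a m)
          simp only [ContinuousLinearMap.comp_apply, ContinuousMultilinearMap.apply_apply,
            ContinuousMultilinearMap.curryLeft_apply]
          have e : (Fin.cons (ind {a}) (fun i => ind {m i}) : Fin (k+1) → LL) =
              fun i => ind {(Fin.cons a m : Fin (k+1) → ℕ) i} := by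
            funext i
            refine Fin.cases ?_ (fun i => ?_) i <;> simp
          rw [e]
          exact this)
    obtain ⟨α, hα⟩ := ih (fun c => (lam c).curryLeft (ind (branch α0))) (by
      intro c m
      exact hα0 (c, m))
    refine ⟨Fin.cons α0 α, fun c => ?_⟩
    have := hα c
    rw [ContinuousMultilinearMap.curryLeft_apply] at this
    have e : (fun i => (ind (branch ((Fin.cons α0 α : Fin (k+1) → (ℕ → Bool)) i)) : LL)) =
        Fin.cons (ind (branch α0)) (fun i => ind (branch (α i))) := by
      funext i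
      refine Fin.cases ?_ (fun i => ?_) i <;> simp
    rw [e]
    exact this

end Pool.Agent.H744R2
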