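import Mathlib

set_option autoImplicit false

/-!
# Banach bimodules and continuous Hochschild cohomology
-/

namespace Pool.Agent.H744R2.Hoch

/-- A Banach `A`-bimodule structure on the (complete) normed space `X`: left and right actions
`lact a x = a · x`, `ract a x = x · a` which are bounded bilinear maps and satisfy the usual
associativity laws. -/
structure BanachBimodule (A : Type) [NormedRing A] [NormedAlgebra ℂ A] (X : Type)
    [NormedAddCommGroup X] [NormedSpace ℂ X] where
  /-- the left action `a · x` -/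
  lact : A →L[ℂ] X →L[ℂ] X
  /-- the right action `x · a` -/
  ract : A →L[ℂ] X →L[ℂ] X
  lact_mul : ∀ (a b : A) (x : X), lact (a * b) x = lact a (lact b x)
  ract_mul : ∀ (a b : A) (x : X), ract (a * b) x = ract b (ract a x)
  lact_ract : ∀ (a b : A) (x : X), lact a (ract b x) = ract b (lact a x)

variable {A : Type} [NormedRing A] [NormedAlgebra ℂ A]
variable {X : Type} [NormedAddCommGroup X] [NormedSpace ℂ X]

/-- `(a₀, …, aₙ) ↦ (a₀, …, aᵢ aᵢ₊₁, …, aₙ)`. -/
def contract {n : ℕ} (i : Fin n) (a : Fin (n + 1) → A) : Fin n → A := fun j =>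
  if (j : ℕ) < (i : ℕ) then a j.castSucc
  else if j = i then a j.castSucc * a j.succ
  else a j.succ

namespace BanachBimodule

/-- The bimodule is symmetric: `a · x = x · a`. -/
def IsSymmetric (M : BanachBimodule A X) : Prop := ∀ (a : A) (x : X), M.lact a x = M.ract a x

/-- The bimodule is unital: `1 · x = x = x · 1`. -/
def IsUnital (M : BanachBimodule A X) : Prop := ∀ x : X, M.lact 1 x = x ∧ M.ract 1 x = x

/-- The Hochschild coboundary
`(δf)(a₀, …, aₙ) = a₀ · f(a₁, …, aₙ) + ∑ᵢ (-1)^(i+1) f(…, aᵢ aᵢ₊₁, …) + (-1)^(n+1) f(a₀, …, aₙ₋₁) · aₙ`. -/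
noncomputable def coboundary (M : BanachBimodule A X) {n : ℕ} (f : (Fin n → A) → X) :
    (Fin (n + 1) → A) → X := fun a =>
  M.lact (a 0) (f (Fin.tail a))
    + ∑ i : Fin n, ((-1 : ℂ) ^ ((i : ℕ) + 1)) • f (contract i a)
    + ((-1 : ℂ) ^ (n + 1)) • M.ract (a (Fin.last n)) (f (Fin.init a))

/-- `Hⁿ(A, X) = 0`, where `Hⁿ(A, X)` is the `n`-th continuous Hochschild cohomology group:
every bounded `n`-linear cocycle `Aⁿ → X` is the coboundary of a bounded `(n-1)`-linear map.
(For `n = 0` the group is `{x : a · x = x · a for all a}`.) -/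
def CohomologyVanishes (M : BanachBimodule A X) : ℕ → Prop
  | 0 => ∀ x : X, (∀ a : A, M.lact a x = M.ract a x) → x = 0
  | m + 1 => ∀ f : ContinuousMultilinearMap ℂ (fun _ : Fin (m + 1) => A) X,
      M.coboundary (fun a => f a) = 0 →
      ∃ g : ContinuousMultilinearMap ℂ (fun _ : Fin m => A) X,
        M.coboundary (fun a => g a) = fun a => f a

end BanachBimodule

end Pool.Agent.H744R2.Hoch
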