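import Mathlib

set_option autoImplicit false

/-!
A selection lemma: free sequences for countable set mappings on products of rapidly growing sets.
-/

namespace Pool.Agent.H744R2

open Set Cardinal

/-- One step of the construction of a free sequence. -/
theorem free_step {X : Type} (T : X → Set X) (hT : ∀ x, (T x).Countable) (Y : Set X)
    (hY : continuum < #Y) :
    ∃ i ∈ Y, continuum < #{m : X | m ∈ Y ∧ i ∉ T m ∧ m ∉ T i ∧ m ≠ i} := by
  by_contra hcon
  push Not at hcon
  -- all the sets `{m ∈ Y | i ∉ T m}` are small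
  have h1 : ∀ i ∈ Y, #{m : X | m ∈ Y ∧ i ∉ T m} ≤ continuum := by
    intro i hi
    have hsub : {m : X | m ∈ Y ∧ i ∉ T m} ⊆
        {m : X | m ∈ Y ∧ i ∉ T m ∧ m ∉ T i ∧ m ≠ i} ∪ (T i ∪ {i}) := by
      intro m hm
      by_cases h1 : m ∈ T i
      · exact Or.inr (Or.inl h1)
      by_cases h2 : m = i
      · exact Or.inr (Or.inr h2)
      · exact Or.inl ⟨hm.1, hm.2, h1, h2⟩
    refine (mk_le_mk_of_subset hsub).trans ((mk_union_le _ _).trans ?_)
    have hc : #(T i ∪ {i} : Set X) ≤ ℵ₀ := by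
      rw [Cardinal.le_aleph0_iff_set_countable]
      exact (hT i).union (countable_singleton i)
    exact (add_le_add (hcon i hi) (hc.trans aleph0_le_continuum)).trans
      (by rw [continuum_add_self])
  -- a subset `Z` of size continuum
  obtain ⟨Z, hZY, hZ⟩ := (Cardinal.le_mk_iff_exists_subset (c := continuum) (s := Y)).1 hY.le
  have h2 : #(⋃ i ∈ Z, {m : X | m ∈ Y ∧ i ∉ T m} : Set X) ≤ continuum := by
    refine (Cardinal.mk_biUnion_le _ _).trans ?_
    rw [hZ]
    have : (⨆ i : Z, #{m : X | m ∈ Y ∧ (i : X) ∉ T m}) ≤ continuum :=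
      ciSup_le' fun i => h1 i (hZY i.2)
    exact (mul_le_mul' le_rfl this).trans (by rw [continuum_mul_self])
  have h3 : ∃ m ∈ Y, m ∉ ⋃ i ∈ Z, {m : X | m ∈ Y ∧ i ∉ T m} := by
    by_contra h
    push Not at h
    exact absurd ((mk_le_mk_of_subset h).trans h2) (not_le.2 hY)
  obtain ⟨m, hmY, hm⟩ := h3
  have h4 : Z ⊆ T m := by
    intro i hi
    by_contra hi2
    exact hm (mem_biUnion hi ⟨hmY, hi2⟩)
  have h5 : #Z ≤ ℵ₀ := by
    rw [Cardinal.le_aleph0_iff_set_countable]
    exact (hT m).mono h4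
  rw [hZ] at h5
  exact absurd h5 (not_le.2 aleph0_lt_continuum)

/-- Free sequences exist in every set of cardinality larger than the continuum. -/
theorem exists_free_seq {X : Type} (T : X → Set X) (hT : ∀ x, (T x).Countable) (Y : Set X)
    (hY : continuum < #Y) :
    ∃ ι : ℕ → X, Function.Injective ι ∧ (∀ n, ι n ∈ Y) ∧ ∀ m n, m ≠ n → ι m ∉ T (ι n) := by
  classical
  -- states
  let St := {Z : Set X // Z ⊆ Y ∧ continuum < #Z}
  have step : ∀ Z : St, ∃ i ∈ Z.1, continuum < #{m : X | m ∈ Z.1 ∧ i ∉ T m ∧ m ∉ T i ∧ m ≠ i} :=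
    fun Z => free_step T hT Z.1 Z.2.2
  choose pick hpick hbig using step
  let next : St → St := fun Z => ⟨{m : X | m ∈ Z.1 ∧ pick Z ∉ T m ∧ m ∉ T (pick Z) ∧ m ≠ pick Z},
    fun m hm => Z.2.1 hm.1, hbig Z⟩
  let seq : ℕ → St := fun n => next^[n] ⟨Y, subset_rfl, hY⟩
  have hseq : ∀ n, seq (n+1) = next (seq n) := fun n => Function.iterate_succ_apply' _ _ _
  have hmono : ∀ m n, m ≤ n → (seq n).1 ⊆ (seq m).1 := by
    intro m n h
    induction h with
    | refl => exact subset_rfl
    | step h ih =>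
      rw [hseq]
      exact fun x hx => ih hx.1
  have key : ∀ m n, m < n → pick (seq m) ∉ T (pick (seq n)) ∧ pick (seq n) ∉ T (pick (seq m)) ∧
      pick (seq n) ≠ pick (seq m) := by
    intro m n h
    have h1 : pick (seq n) ∈ (seq (m+1)).1 := hmono (m+1) n h (hpick _)
    rw [hseq] at h1
    exact h1.2
  refine ⟨fun n => pick (seq n), ?_, ?_, ?_⟩
  · intro m n h
    by_contra hne
    rcases lt_or_gt_of_ne hne with h1 | h1
    · exact (key m n h1).2.2 h.symm
    · exact (key n m h1).2.2 h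
  · exact fun n => (seq n).2.1 (hpick _)
  · intro m n hne
    rcases lt_or_gt_of_ne hne with h1 | h1
    · exact (key m n h1).1
    · exact (key n m h1).2.1

/-- The union of the first `j` blocks. -/
def lowerU {Γ : Type} (V : ℕ → Set Γ) (j : ℕ) : Set Γ := {x | ∃ i < j, x ∈ V i}

/-- Free sequences for countable set mappings on products. -/
theorem exists_free_family {Γ : Type} (V : ℕ → Set Γ)
    (hV : ∀ j, max continuum #((Fin j → lowerU V j) → Set (lowerU V j)) < #(V j)) (k : ℕ) :
    ∀ (S : (Fin k → Γ) → Set Γ) (_ : ∀ m, (S m).Countable),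
    ∃ ι : Fin k → ℕ → Γ, (∀ j, Function.Injective (ι j)) ∧ (∀ (j : Fin k) n, ι j n ∈ V j) ∧
      ∀ (m : Fin k → ℕ) (j : Fin k) (t : ℕ), t ≠ m j → ι j t ∉ S (fun i => ι i (m i)) := by
  induction k with
  | zero =>
    intro S _
    exact ⟨fun i => i.elim0, fun i => i.elim0, fun i => i.elim0, fun _ i => i.elim0⟩
  | succ k ih =>
    intro S hS
    let F : V k → ((Fin k → lowerU V k) → Set (lowerU V k)) := fun n m =>
      {q | (q : Γ) ∈ S (Fin.snoc (α := fun _ => Γ) (fun i => (m i : Γ)) (n : Γ))}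
    let μ : Cardinal := max continuum #((Fin k → lowerU V k) → Set (lowerU V k))
    have hμ : ℵ₀ ≤ μ := aleph0_le_continuum.trans (le_max_left _ _)
    obtain ⟨F0, hF0⟩ := Cardinal.infinite_pigeonhole_card F (Order.succ μ)
      (Order.succ_le_of_lt (hV k)) (hμ.trans (Order.le_succ μ)) (by
        rw [(Cardinal.isRegular_succ hμ).cof_ord]
        exact lt_of_le_of_lt (le_max_right _ _) (Order.lt_succ μ))
    let Y : Set Γ := {n | ∃ h : n ∈ V k, F ⟨n, h⟩ = F0}
    have hYcard : continuum < #Y := by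
      have h1 : #(F ⁻¹' {F0}) ≤ #Y := by
        refine Cardinal.mk_le_of_injective (f := fun x : (F ⁻¹' {F0}) =>
          (⟨(x.1 : Γ), x.1.2, x.2⟩ : Y)) ?_
        intro x y h
        have := congrArg Subtype.val h
        exact Subtype.ext (Subtype.ext this)
      exact lt_of_lt_of_le (lt_of_le_of_lt (le_max_left _ _) (Order.lt_succ μ)) (hF0.trans h1)
    have hYne : Y.Nonempty := by
      by_contra h
      rw [Set.not_nonempty_iff_eq_empty] at h
      rw [h] at hYcard
      simp at hYcard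
    obtain ⟨n0, hn0⟩ := hYne
    obtain ⟨ι, hinj, hval, hfree⟩ := ih (fun m => S (Fin.snoc (α := fun _ => Γ) m n0))
      (fun m => hS _)
    have hlow : ∀ (j : Fin k) n, ι j n ∈ lowerU V k := fun j n => ⟨j, j.2, hval j n⟩
    let T : Γ → Set Γ := fun n => ⋃ m : Fin k → ℕ,
      S (Fin.snoc (α := fun _ => Γ) (fun i => ι i (m i)) n)
    have hT : ∀ x, (T x).Countable := fun x => countable_iUnion fun m => hS _
    obtain ⟨κ, hκi, hκY, hκfree⟩ := exists_free_seq T hT Y hYcard
    have hsn : ∀ (m : Fin (k+1) → ℕ),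
        (fun i => (Fin.snoc (α := fun _ => ℕ → Γ) ι κ : Fin (k+1) → ℕ → Γ) i (m i)) =
        Fin.snoc (α := fun _ => Γ) (fun i => ι i (m i.castSucc)) (κ (m (Fin.last k))) := by
      intro m
      funext i
      refine Fin.lastCases ?_ (fun i => ?_) i
      · simp
      · simp
    refine ⟨Fin.snoc (α := fun _ => ℕ → Γ) ι κ, ?_, ?_, ?_⟩
    · intro j
      refine Fin.lastCases ?_ (fun j => ?_) j
      · simpa using hκi
      · simpa using hinj j
    · intro j n
      refine Fin.lastCases ?_ (fun j => ?_) j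
      · simp only [Fin.snoc_last, Fin.val_last]
        exact (hκY n).1
      · simp only [Fin.snoc_castSucc, Fin.val_castSucc]
        exact hval j n
    · intro m j
      rw [hsn]
      refine Fin.lastCases ?_ (fun j => ?_) j
      · intro t ht
        simp only [Fin.snoc_last]
        intro hmem
        exact hκfree t (m (Fin.last k)) ht (mem_iUnion.2 ⟨fun i => m i.castSucc, hmem⟩)
      · intro t ht
        simp only [Fin.snoc_castSucc]
        intro hmem
        have h1 := hκY (m (Fin.last k))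
        obtain ⟨h1V, h1F⟩ := h1
        obtain ⟨h0V, h0F⟩ := hn0
        have h2 : F ⟨κ (m (Fin.last k)), h1V⟩ = F ⟨n0, h0V⟩ := h1F.trans h0F.symm
        have h3 := congrFun h2 (fun i => ⟨ι i (m i.castSucc), hlow _ _⟩)
        have h4 : (⟨ι j t, hlow j t⟩ : lowerU V k) ∈
            F ⟨κ (m (Fin.last k)), h1V⟩ (fun i => ⟨ι i (m i.castSucc), hlow _ _⟩) := hmem
        rw [h3] at h4
        exact hfree (fun i => m i.castSucc) j t ht h4

/-! ### Concrete rapidly growing blocks -/

/-- The blocks. -/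
def Blk : ℕ → Type
  | 0 => Set (Set ℕ)
  | j + 1 => Set (Set (Blk j))

/-- The disjoint union of the blocks. -/
def Gam : Type := Σ j : ℕ, Blk j

/-- The blocks as subsets. -/
def blk (j : ℕ) : Set Gam := {x | x.1 = j}

theorem mk_blk (j : ℕ) : #(blk j) = #(Blk j) := by
  refine Cardinal.mk_congr ⟨fun x => cast (congrArg Blk x.2) x.1.2, fun b => ⟨⟨j, b⟩, rfl⟩, ?_, ?_⟩
  · rintro ⟨⟨i, b⟩, h⟩
    have h' : i = j := h
    subst h'
    rfl
  · intro b; rfl

theorem mk_Blk_succ (j : ℕ) : #(Blk (j+1)) = 2 ^ (2 ^ #(Blk j) : Cardinal.{0}) := by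
  change #(Set (Set (Blk j))) = _
  rw [Cardinal.mk_set, Cardinal.mk_set]

theorem continuum_lt_Blk : ∀ j, continuum < #(Blk j)
  | 0 => by
    change _ < #(Set (Set ℕ))
    rw [Cardinal.mk_set, Cardinal.mk_set, Cardinal.mk_nat, Cardinal.two_power_aleph0]
    exact Cardinal.cantor _
  | j+1 => by
    rw [mk_Blk_succ]
    exact (continuum_lt_Blk j).trans ((Cardinal.cantor _).trans (Cardinal.cantor _))

theorem aleph0_le_Blk (j : ℕ) : ℵ₀ ≤ #(Blk j) :=
  aleph0_le_continuum.trans (continuum_lt_Blk j).le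

theorem lowerU_succ (j : ℕ) : lowerU blk (j+1) ⊆ lowerU blk j ∪ blk j := by
  rintro x ⟨i, hi, hx⟩
  rcases Nat.lt_succ_iff_lt_or_eq.1 hi with h | h
  · exact Or.inl ⟨i, h, hx⟩
  · subst h; exact Or.inr hx

theorem mk_lowerU_le (j : ℕ) : #(lowerU blk j) ≤ #(Blk j) := by
  induction j with
  | zero =>
    have : lowerU blk 0 = ∅ := by
      ext x; simp [lowerU]
    rw [this]
    simp
  | succ j ih =>
    refine (mk_le_mk_of_subset (lowerU_succ j)).trans ((mk_union_le _ _).trans ?_)
    rw [mk_blk]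
    refine (add_le_add ih le_rfl).trans ?_
    rw [Cardinal.add_eq_self (aleph0_le_Blk j), mk_Blk_succ]
    exact (Cardinal.cantor _).le.trans (Cardinal.cantor _).le

theorem mk_lowerU_succ_le (j : ℕ) : #(lowerU blk (j+1)) ≤ #(Blk j) := by
  refine (mk_le_mk_of_subset (lowerU_succ j)).trans ((mk_union_le _ _).trans ?_)
  rw [mk_blk]
  refine (add_le_add (mk_lowerU_le j) le_rfl).trans ?_
  rw [Cardinal.add_eq_self (aleph0_le_Blk j)]

theorem blk_growth (j : ℕ) :
    max continuum #((Fin j → lowerU blk j) → Set (lowerU blk j)) < #(blk j) := by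
  rw [mk_blk]
  refine max_lt (continuum_lt_Blk j) ?_
  cases j with
  | zero =>
    have h0 : IsEmpty (lowerU blk 0) := by
      constructor
      rintro ⟨x, i, hi, _⟩
      exact absurd hi (Nat.not_lt_zero i)
    have h1 : #((Fin 0 → lowerU blk 0) → Set (lowerU blk 0)) = 1 := by
      rw [← Cardinal.power_def, Cardinal.mk_set]
      simp
    rw [h1]
    exact lt_of_lt_of_le Cardinal.one_lt_aleph0 (aleph0_le_Blk 0)
  | succ j =>
    have h1 : #((Fin (j+1) → lowerU blk (j+1)) → Set (lowerU blk (j+1))) ≤ 2 ^ #(Blk j) := by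
      rw [← Cardinal.power_def, Cardinal.mk_set, ← Cardinal.power_mul]
      refine Cardinal.power_le_power_left two_ne_zero ?_
      have h2 : #(Fin (j+1) → lowerU blk (j+1)) ≤ #(Blk j) := by
        rw [← Cardinal.power_def, Cardinal.mk_fin]
        exact (Cardinal.power_le_power_right (mk_lowerU_succ_le j)).trans
          (Cardinal.power_nat_le (aleph0_le_Blk j))
      exact (mul_le_mul' (mk_lowerU_succ_le j) h2).trans (Cardinal.mul_eq_self (aleph0_le_Blk j)).le
    refine lt_of_le_of_lt h1 ?_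
    rw [mk_Blk_succ]
    exact Cardinal.cantor _

/-- The selection lemma for the concrete blocks. -/
theorem exists_free_blk (k : ℕ) (S : (Fin k → Gam) → Set Gam) (hS : ∀ m, (S m).Countable) :
    ∃ ι : Fin k → ℕ → Gam, (∀ j, Function.Injective (ι j)) ∧ (∀ (j : Fin k) n, ι j n ∈ blk j) ∧
      ∀ (m : Fin k → ℕ) (j : Fin k) (t : ℕ), t ≠ m j → ι j t ∉ S (fun i => ι i (m i)) :=
  exists_free_family blk blk_growth k S hS

end Pool.Agent.H744R2
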