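import Mathlib
import Pool.Agent.H744R2.AD
import Pool.Agent.H744R2.Sel
import Pool.Agent.H744R2.HochDefs

set_option autoImplicit false

/-!
# The function algebra and the combinatorial complex
-/

namespace Pool.Agent.H744R2

open Set BoundedContinuousFunction

instance : TopologicalSpace Gam := ⊥
instance : DiscreteTopology Gam := ⟨rfl⟩

/-- `Gam` with one more point. -/
def Gam1 : Type := Option Gam

/-- the inclusion -/
def pt (x : Gam) : Gam1 := some x
/-- the additional point -/
def pinf : Gam1 := none

instance : TopologicalSpace Gam1 := ⊥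
instance : DiscreteTopology Gam1 := ⟨rfl⟩

/-- Bounded functions on a (discrete) space. -/
abbrev BF (α : Type) [TopologicalSpace α] := BoundedContinuousFunction α ℂ

/-- Pull-back of bounded functions. -/
noncomputable def pb {α β : Type} [TopologicalSpace α] [DiscreteTopology α] [TopologicalSpace β]
    (φ : α → β) : BF β →L[ℂ] BF α :=
  LinearMap.mkContinuous
    { toFun := fun f => f.compContinuous ⟨φ, continuous_of_discreteTopology⟩
      map_add' := fun f g => by ext; rfl
      map_smul' := fun c f => by ext; rfl } 1 (by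
        intro f
        rw [one_mul]
        refine (BoundedContinuousFunction.norm_le (norm_nonneg f)).2 fun x => ?_
        exact f.norm_coe_le_norm _)

@[simp] theorem pb_apply {α β : Type} [TopologicalSpace α] [DiscreteTopology α]
    [TopologicalSpace β] (φ : α → β) (f : BF β) (x : α) : pb φ f x = f (φ x) := rfl

/-! ### The complex `b'` on plain functions -/

/-- `(b'F)(x₁,…,x_m) = ∑_j (-1)^j F(…, x_j, x_j, …)`. -/
def bpl {m : ℕ} (F : (Fin (m + 1) → Gam) → ℂ) : (Fin m → Gam) → ℂ := fun x =>
  ∑ j : Fin m, (-1 : ℂ) ^ (j : ℕ) * F (x ∘ j.predAbove)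

theorem comp_predAbove_zero {m : ℕ} (x : Fin (m + 1) → Gam) :
    x ∘ (0 : Fin (m + 1)).predAbove = Fin.cons (x 0) x := by
  funext i
  refine Fin.cases ?_ (fun i => ?_) i
  · simp [Fin.predAbove]
  · simp [Fin.predAbove]

theorem comp_predAbove_succ {m : ℕ} (x : Fin (m + 1) → Gam) (j : Fin m) :
    x ∘ (j.succ : Fin (m + 1)).predAbove = Fin.cons (x 0) (Fin.tail x ∘ j.predAbove) := by
  funext i
  refine Fin.cases ?_ (fun i => ?_) i
  · simp [Fin.predAbove]
  · simp only [Function.comp_apply, Fin.cons_succ, Fin.tail, Fin.succ_predAbove_succ]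

theorem bpl_succ {m : ℕ} (F : (Fin (m + 2) → Gam) → ℂ) (x : Fin (m + 1) → Gam) :
    bpl F x = F (Fin.cons (x 0) x) - bpl (fun y => F (Fin.cons (x 0) y)) (Fin.tail x) := by
  unfold bpl
  rw [Fin.sum_univ_succ]
  simp only [comp_predAbove_zero, comp_predAbove_succ, Fin.val_zero, pow_zero, one_mul,
    Fin.val_succ, pow_succ]
  rw [sub_eq_add_neg, ← Finset.sum_neg_distrib]
  congr 1
  refine Finset.sum_congr rfl fun j _ => ?_
  ring

theorem bpl_sub {m : ℕ} (F G : (Fin (m + 1) → Gam) → ℂ) (x : Fin m → Gam) :
    bpl (fun y => F y - G y) x = bpl F x - bpl G x := by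
  unfold bpl
  rw [← Finset.sum_sub_distrib]
  exact Finset.sum_congr rfl fun j _ => by ring

theorem bpl_bpl : ∀ {m : ℕ} (F : (Fin (m + 2) → Gam) → ℂ) (x : Fin m → Gam), bpl (bpl F) x = 0
  | 0, F, x => by simp [bpl]
  | m + 1, F, x => by
    rw [bpl_succ (bpl F) x, bpl_succ F (Fin.cons (x 0) x)]
    simp only [Fin.cons_zero, Fin.tail_cons]
    rw [bpl_succ (fun y => F (Fin.cons (x 0) y)) x]
    have h1 : (fun y => bpl F (Fin.cons (x 0) y)) = fun y : Fin (m+1) → Gam =>
        F (Fin.cons (x 0) (Fin.cons (x 0) y)) - bpl (fun z => F (Fin.cons (x 0) z)) y := by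
      funext y
      rw [bpl_succ F (Fin.cons (x 0) y)]
      simp only [Fin.cons_zero, Fin.tail_cons]
    rw [h1, bpl_sub, bpl_bpl (fun z => F (Fin.cons (x 0) z)) (Fin.tail x)]
    ring

/-! ### The algebra -/

/-- Bounded functions on `Gam ∪ {∞}` which, up to a countable set, are constant with the value at
`∞`. -/
noncomputable def A0 : StarSubalgebra ℂ (BF Gam1) where
  carrier := {f | {x : Gam | f (pt x) ≠ f pinf}.Countable}
  mul_mem' := by
    intro f g hf hg
    refine (hf.union hg).mono ?_
    intro x hx
    by_contra h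
    simp only [mem_union, mem_ofPred_eq, not_or, not_not] at h
    apply hx
    simp only [BoundedContinuousFunction.coe_mul, Pi.mul_apply]
    rw [h.1, h.2]
  add_mem' := by
    intro f g hf hg
    refine (hf.union hg).mono ?_
    intro x hx
    by_contra h
    simp only [mem_union, mem_ofPred_eq, not_or, not_not] at h
    apply hx
    simp only [BoundedContinuousFunction.coe_add, Pi.add_apply]
    rw [h.1, h.2]
  algebraMap_mem' := by
    intro c
    have : {x : Gam | (algebraMap ℂ (BF Gam1) c) (pt x) ≠ (algebraMap ℂ (BF Gam1) c) pinf} = ∅ := by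
      ext x
      simp only [mem_ofPred_eq, mem_empty_iff_false, iff_false, not_not]
      rfl
    simp only [mem_ofPred_eq]
    rw [this]
    exact countable_empty
  star_mem' := by
    intro f hf
    refine Set.Countable.mono ?_ hf
    intro x hx h
    apply hx
    simp only [BoundedContinuousFunction.star_apply]
    rw [h]

theorem mem_A0 {f : BF Gam1} : f ∈ A0 ↔ {x : Gam | f (pt x) ≠ f pinf}.Countable := Iff.rfl

theorem isClosed_A0 : IsClosed (A0 : Set (BF Gam1)) := by
  rw [← isSeqClosed_iff_isClosed]
  intro f g hf hfg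
  refine (countable_iUnion fun n => mem_A0.1 (hf n)).mono ?_
  intro x hx
  by_contra h
  simp only [mem_iUnion, mem_ofPred_eq, not_exists, not_not] at h
  apply hx
  have h1 : Filter.Tendsto (fun n => f n (pt x)) Filter.atTop (nhds (g (pt x))) :=
    ((evalCLM ℂ (pt x)).continuous.tendsto g).comp hfg
  have h2 : Filter.Tendsto (fun n => f n pinf) Filter.atTop (nhds (g pinf)) :=
    ((evalCLM ℂ pinf).continuous.tendsto g).comp hfg
  simp only [h] at h1
  exact tendsto_nhds_unique h1 h2

instance : IsClosed (A0 : Set (BF Gam1)) := isClosed_A0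

/-- The type of elements of the algebra. -/
abbrev AA : Type := A0

noncomputable instance : CommCStarAlgebra AA := inferInstance

/-- The character at infinity. -/
noncomputable def chi : AA →L[ℂ] ℂ := (evalCLM ℂ pinf).comp (A0.toSubalgebra.toSubmodule.subtypeL)

theorem chi_apply (a : AA) : chi a = a.1 pinf := rfl

theorem chi_mul (a b : AA) : chi (a * b) = chi a * chi b := rfl

theorem chi_one : chi 1 = 1 := rfl

end Pool.Agent.H744R2
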