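import Mathlib
import Pool.Agent.H744R2.HochAlg

set_option autoImplicit false

/-!
# The product cochains and the telescoping identity
-/

namespace Pool.Agent.H744R2

open Set BoundedContinuousFunction Hoch

/-- The function `x ↦ a(x_i) - a(∞)` on tuples. -/
noncomputable def Qm {m : ℕ} (i : Fin m) : AA →L[ℂ] BF (Fin m → Gam) :=
  ((pb (fun x : Fin m → Gam => pt (x i))) - (pb (fun _ : Fin m → Gam => pinf))).comp
    (A0.toSubalgebra.toSubmodule.subtypeL)

theorem Qm_apply {m : ℕ} (i : Fin m) (a : AA) (x : Fin m → Gam) :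
    Qm i a x = a.1 (pt (x i)) - a.1 pinf := rfl

/-- The product cochain `(a₁,…,a_m) ↦ ∏ (a_i(x_i) - a_i(∞))`. -/
noncomputable def Em (m : ℕ) : ContinuousMultilinearMap ℂ (fun _ : Fin m => AA) (BF (Fin m → Gam)) :=
  (ContinuousMultilinearMap.mkPiAlgebra ℂ (Fin m) (BF (Fin m → Gam))).compContinuousLinearMap
    (fun i => Qm i)

/-- plain version -/
noncomputable def Ep {m : ℕ} (a : Fin m → AA) (x : Fin m → Gam) : ℂ :=
  ∏ i, ((a i).1 (pt (x i)) - (a i).1 pinf)

theorem prod_apply' {m : ℕ} (s : Finset (Fin m)) (F : Fin m → BF (Fin m → Gam))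
    (x : Fin m → Gam) : (∏ i ∈ s, F i) x = ∏ i ∈ s, F i x := by
  classical
  induction s using Finset.induction_on with
  | empty => simp
  | insert i s hi ih => 
    rw [Finset.prod_insert hi, Finset.prod_insert hi, BoundedContinuousFunction.mul_apply, ih]

theorem Em_apply {m : ℕ} (a : Fin m → AA) (x : Fin m → Gam) : Em m a x = Ep a x := by
  unfold Em Ep
  rw [ContinuousMultilinearMap.compContinuousLinearMap_apply,
    ContinuousMultilinearMap.mkPiAlgebra_apply, prod_apply']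
  rfl

theorem Ep_cons {m : ℕ} (a0 : AA) (a : Fin m → AA) (x0 : Gam) (x : Fin m → Gam) :
    Ep (Fin.cons a0 a : Fin (m+1) → AA) (Fin.cons x0 x) =
      (a0.1 (pt x0) - a0.1 pinf) * Ep a x := by
  unfold Ep
  rw [Fin.prod_univ_succ]
  simp

theorem Ep_succ {m : ℕ} (a : Fin (m+1) → AA) (x : Fin (m+1) → Gam) :
    Ep a x = ((a 0).1 (pt (x 0)) - (a 0).1 pinf) * Ep (Fin.tail a) (Fin.tail x) := by
  unfold Ep
  rw [Fin.prod_univ_succ]
  simp [Fin.tail]

theorem contract_zero {n : ℕ} (a : Fin (n + 2) → AA) :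
    contract (0 : Fin (n+1)) a = Fin.cons (a 0 * a 1) (Fin.tail (Fin.tail a)) := by
  funext j
  refine Fin.cases ?_ (fun j => ?_) j
  · simp [contract]
  · simp [contract, Fin.tail]

theorem contract_succ {n : ℕ} (i : Fin n) (a : Fin (n + 2) → AA) :
    contract (i.succ : Fin (n+1)) a = Fin.cons (a 0) (contract i (Fin.tail a)) := by
  funext j
  refine Fin.cases ?_ (fun j => ?_) j
  · simp [contract]
  · simp only [contract, Fin.val_succ, add_lt_add_iff_right, Fin.succ_inj, Fin.cons_succ, Fin.tail,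
      Fin.castSucc_succ]

/-- The telescoping identity. -/
theorem telescope : ∀ {n : ℕ} (a : Fin (n + 1) → AA) (x : Fin n → Gam),
    (∑ i : Fin n, (-1 : ℂ) ^ ((i : ℕ) + 1) * Ep (contract i a) x) + bpl (Ep a) x =
      - ((a 0).1 pinf * Ep (Fin.tail a) x)
        + (-1 : ℂ) ^ n * ((a (Fin.last n)).1 pinf * Ep (Fin.init a) x)
  | 0, a, x => by
    simp [bpl, Ep]
  | n + 1, a, x => by
    have ih := telescope (Fin.tail a) (Fin.tail x)
    rw [Fin.sum_univ_succ, bpl_succ]
    simp only [contract_zero, contract_succ, Fin.val_zero, Fin.val_succ]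
    have e1 : Ep (Fin.cons (a 0 * a 1) (Fin.tail (Fin.tail a)) : Fin (n+1) → AA) x =
        ((a 0).1 (pt (x 0)) * (a 1).1 (pt (x 0)) - (a 0).1 pinf * (a 1).1 pinf) *
          Ep (Fin.tail (Fin.tail a)) (Fin.tail x) := by
      rw [Ep_succ]
      rfl
    have e2 : Ep a (Fin.cons (x 0) x) = ((a 0).1 (pt (x 0)) - (a 0).1 pinf) *
        (((a 1).1 (pt (x 0)) - (a 1).1 pinf) * Ep (Fin.tail (Fin.tail a)) (Fin.tail x)) := by
      rw [Ep_succ, Ep_succ]
      simp [Fin.tail]
    have e3 : (fun y => Ep a (Fin.cons (x 0) y)) = fun y =>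
        ((a 0).1 (pt (x 0)) - (a 0).1 pinf) * Ep (Fin.tail a) y := by
      funext y
      rw [Ep_succ]
      simp [Fin.tail]
    have e4 : bpl (fun y => Ep a (Fin.cons (x 0) y)) (Fin.tail x) =
        ((a 0).1 (pt (x 0)) - (a 0).1 pinf) * bpl (Ep (Fin.tail a)) (Fin.tail x) := by
      rw [e3]
      unfold bpl
      rw [Finset.mul_sum]
      exact Finset.sum_congr rfl fun j _ => by ring
    have e5 : ∀ i : Fin n, Ep (Fin.cons (a 0) (contract i (Fin.tail a)) : Fin (n+1) → AA) x =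
        ((a 0).1 (pt (x 0)) - (a 0).1 pinf) * Ep (contract i (Fin.tail a)) (Fin.tail x) := by
      intro i
      rw [Ep_succ]
      simp [Fin.tail]
    have e6 : Ep (Fin.tail a) x = ((a 1).1 (pt (x 0)) - (a 1).1 pinf) *
        Ep (Fin.tail (Fin.tail a)) (Fin.tail x) := by
      rw [Ep_succ]
      simp [Fin.tail]
    have e7 : Ep (Fin.init a) x = ((a 0).1 (pt (x 0)) - (a 0).1 pinf) *
        Ep (Fin.init (Fin.tail a)) (Fin.tail x) := by
      rw [Ep_succ, ← Fin.tail_init_eq_init_tail]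
      rfl
    rw [e1, e2, e4, e6, e7]
    simp only [e5]
    have e8 : (Fin.tail a) 0 = a 1 := rfl
    have e9 : (Fin.tail a) (Fin.last n) = a (Fin.last (n+1)) := rfl
    rw [e8, e9] at ih
    have e10 : ∑ i : Fin n, (-1 : ℂ) ^ ((i : ℕ) + 1 + 1) *
        (((a 0).1 (pt (x 0)) - (a 0).1 pinf) * Ep (contract i (Fin.tail a)) (Fin.tail x)) =
        - (((a 0).1 (pt (x 0)) - (a 0).1 pinf) *
          ∑ i : Fin n, (-1 : ℂ) ^ ((i : ℕ) + 1) * Ep (contract i (Fin.tail a)) (Fin.tail x)) := by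
      rw [Finset.mul_sum, ← Finset.sum_neg_distrib]
      exact Finset.sum_congr rfl fun j _ => by ring
    rw [e10]
    linear_combination (-((a 0).1 (pt (x 0)) - (a 0).1 pinf)) * ih

end Pool.Agent.H744R2
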