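import Mathlib
import Pool.Agent.H744R2.HochE

set_option autoImplicit false

/-!
# The coefficient modules
-/

namespace Pool.Agent.H744R2

open Set BoundedContinuousFunction Hoch

/-- Nearly step functions on tuples. -/
def NearStep {m : ℕ} (F : (Fin m → Gam) → ℂ) : Prop :=
  ∀ ε : ℝ, 0 < ε → ∃ (r : ℕ) (c : Gam → Fin r), ∀ x y : Fin m → Gam, (∀ i, c (x i) = c (y i)) →
    ‖F x - F y‖ ≤ ε

/-- Countably supported functions on tuples. -/
def CSupp {m : ℕ} (F : (Fin m → Gam) → ℂ) : Prop :=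
  ∃ S : Set Gam, S.Countable ∧ ∀ x : Fin m → Gam, F x ≠ 0 → ∀ i, x i ∈ S

theorem two_colors (r s : ℕ) (c : Gam → Fin r) (d : Gam → Fin s) :
    ∃ (t : ℕ) (e : Gam → Fin t), ∀ u v, e u = e v → c u = c v ∧ d u = d v := by
  refine ⟨r * s, fun u => finProdFinEquiv (c u, d u), fun u v h => ?_⟩
  have := finProdFinEquiv.injective h
  exact ⟨(Prod.ext_iff.1 this).1, (Prod.ext_iff.1 this).2⟩

theorem NearStep.add {m : ℕ} {F G : (Fin m → Gam) → ℂ} (hF : NearStep F) (hG : NearStep G) :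
    NearStep (fun x => F x + G x) := by
  intro ε hε
  obtain ⟨r, c, hc⟩ := hF (ε/2) (half_pos hε)
  obtain ⟨s, d, hd⟩ := hG (ε/2) (half_pos hε)
  obtain ⟨t, e, he⟩ := two_colors r s c d
  refine ⟨t, e, fun x y h => ?_⟩
  have h1 := hc x y fun i => (he _ _ (h i)).1
  have h2 := hd x y fun i => (he _ _ (h i)).2
  calc ‖F x + G x - (F y + G y)‖ = ‖(F x - F y) + (G x - G y)‖ := by congr 1; ring
    _ ≤ ‖F x - F y‖ + ‖G x - G y‖ := norm_add_le _ _
    _ ≤ ε := by linarith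

theorem NearStep.const_mul {m : ℕ} {F : (Fin m → Gam) → ℂ} (hF : NearStep F) (a : ℂ) :
    NearStep (fun x => a * F x) := by
  intro ε hε
  have hpos : 0 < ‖a‖ + 1 := by positivity
  obtain ⟨r, c, hc⟩ := hF (ε / (‖a‖ + 1)) (div_pos hε hpos)
  refine ⟨r, c, fun x y h => ?_⟩
  have h1 := hc x y h
  rw [← mul_sub, norm_mul]
  rw [le_div_iff₀ hpos] at h1
  nlinarith [norm_nonneg (F x - F y), norm_nonneg a]

/-- A bounded function on `Gam` is nearly a step function. -/
theorem finite_coloring (f : Gam → ℂ) (C : ℝ) (hf : ∀ x, ‖f x‖ ≤ C) (ε : ℝ) (hε : 0 < ε) :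
    ∃ (r : ℕ) (c : Gam → Fin r), ∀ u v, c u = c v → ‖f u - f v‖ ≤ ε := by
  have hK : TotallyBounded (Metric.closedBall (0 : ℂ) C) :=
    (isCompact_closedBall (0 : ℂ) C).totallyBounded
  obtain ⟨t, ht, htc⟩ := Metric.totallyBounded_iff.1 hK (ε/2) (half_pos hε)
  have : Finite t := ht
  obtain ⟨r, ⟨e⟩⟩ := Finite.exists_equiv_fin t
  have hx : ∀ x : Gam, ∃ y : t, dist (f x) y < ε/2 := by
    intro x
    have h1 : f x ∈ Metric.closedBall (0 : ℂ) C := by
      rw [mem_closedBall_zero_iff]; exact hf x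
    obtain ⟨y, hy, hxy⟩ := mem_iUnion₂.1 (htc h1)
    exact ⟨⟨y, hy⟩, hxy⟩
  choose g hg using hx
  refine ⟨r, fun x => e (g x), fun u v h => ?_⟩
  have h1 : g u = g v := e.injective h
  have h2 := hg u
  have h3 := hg v
  rw [h1] at h2
  rw [← dist_eq_norm]
  calc dist (f u) (f v) ≤ dist (f u) (g v) + dist (g v : ℂ) (f v) := dist_triangle _ _ _
    _ = dist (f u) (g v) + dist (f v) (g v : ℂ) := by rw [dist_comm (g v : ℂ)]
    _ ≤ ε := by linarith

theorem NearStep.mul {m : ℕ} {F G : (Fin m → Gam) → ℂ} (hF : NearStep F) (hG : NearStep G)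
    {C D : ℝ} (hC : ∀ x, ‖F x‖ ≤ C) (hD : ∀ x, ‖G x‖ ≤ D) : NearStep (fun x => F x * G x) := by
  intro ε hε
  have hC1 : 0 < |C| + 1 := by positivity
  have hD1 : 0 < |D| + 1 := by positivity
  obtain ⟨r, c, hc⟩ := hF (ε/2/(|D|+1)) (div_pos (half_pos hε) hD1)
  obtain ⟨s, d, hd⟩ := hG (ε/2/(|C|+1)) (div_pos (half_pos hε) hC1)
  obtain ⟨t, e, he⟩ := two_colors r s c d
  refine ⟨t, e, fun x y h => ?_⟩
  have h1 := hc x y fun i => (he _ _ (h i)).1
  have h2 := hd x y fun i => (he _ _ (h i)).2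
  rw [le_div_iff₀ hD1] at h1
  rw [le_div_iff₀ hC1] at h2
  have e1 : F x * G x - F y * G y = (F x - F y) * G x + F y * (G x - G y) := by ring
  rw [e1]
  have h3 : ‖(F x - F y) * G x‖ ≤ ε/2 := by
    rw [norm_mul]
    have := (hD x).trans ((le_abs_self D).trans (by linarith : |D| ≤ |D| + 1))
    exact (mul_le_mul_of_nonneg_left this (norm_nonneg _)).trans h1
  have h4 : ‖F y * (G x - G y)‖ ≤ ε/2 := by
    rw [norm_mul, mul_comm]
    have := (hC y).trans ((le_abs_self C).trans (by linarith : |C| ≤ |C| + 1))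
    exact (mul_le_mul_of_nonneg_left this (norm_nonneg _)).trans h2
  exact (norm_add_le _ _).trans (by linarith)

/-- The closed subspace of nearly step functions with countable support. -/
def Wsub (m : ℕ) : Submodule ℂ (BF (Fin m → Gam)) where
  carrier := {F | NearStep (fun x => F x) ∧ CSupp (fun x => F x)}
  add_mem' := by
    rintro F G ⟨h1, S, hS, h2⟩ ⟨h3, T, hT, h4⟩
    refine ⟨h1.add h3, S ∪ T, hS.union hT, ?_⟩
    intro x hx i
    by_cases h : F x = 0
    · refine Or.inr (h4 x ?_ i)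
      intro h5
      apply hx
      have h6 : G x = 0 := h5
      change F x + G x = 0
      rw [h, h6, add_zero]
    · exact Or.inl (h2 x h i)
  zero_mem' := by
    refine ⟨fun ε hε => ⟨1, fun _ => 0, fun x y _ => by simpa using hε.le⟩, ∅, countable_empty, ?_⟩
    intro x hx
    exact absurd rfl hx
  smul_mem' := by
    rintro a F ⟨h1, S, hS, h2⟩
    refine ⟨h1.const_mul a, S, hS, ?_⟩
    intro x hx i
    refine h2 x ?_ i
    intro h
    apply hx
    have h6 : F x = 0 := h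
    change a * F x = 0
    rw [h6, mul_zero]

theorem isClosed_Wsub (m : ℕ) : IsClosed (Wsub m : Set (BF (Fin m → Gam))) := by
  rw [← isSeqClosed_iff_isClosed]
  intro f g hf hfg
  refine ⟨?_, ?_⟩
  · intro ε hε
    obtain ⟨N, hN⟩ := (Metric.tendsto_atTop.1 hfg) (ε/3) (by positivity)
    obtain ⟨r, c, hc⟩ := (hf N).1 (ε/3) (by positivity)
    refine ⟨r, c, fun x y h => ?_⟩
    have h1 := hc x y h
    have h2 := hN N le_rfl
    have h3 : ∀ z, ‖f N z - g z‖ ≤ ε/3 := by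
      intro z
      have := (f N).dist_coe_le_dist (g := g) z
      rw [dist_eq_norm] at this
      exact this.trans h2.le
    have e1 : g x - g y = (f N x - f N y) - (f N x - g x) + (f N y - g y) := by ring
    change ‖g x - g y‖ ≤ ε
    rw [e1]
    refine (norm_add_le _ _).trans ?_
    have h5 := norm_sub_le (f N x - f N y) (f N x - g x)
    have h6 := h3 x
    have h7 := h3 y
    linarith
  · choose S hS hS2 using fun n => (hf n).2
    refine ⟨⋃ n, S n, countable_iUnion hS, ?_⟩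
    intro x hx i
    have h1 : Filter.Tendsto (fun n => f n x) Filter.atTop (nhds (g x)) :=
      ((evalCLM ℂ x).continuous.tendsto g).comp hfg
    obtain ⟨n, hn⟩ := (h1.eventually_ne hx).exists
    exact mem_iUnion.2 ⟨n, hS2 n x hn i⟩

/-- The complex map on bounded functions. -/
noncomputable def bp (m : ℕ) : BF (Fin (m + 1) → Gam) →L[ℂ] BF (Fin m → Gam) :=
  ∑ j : Fin m, ((-1 : ℂ) ^ (j : ℕ)) • pb (fun x : Fin m → Gam => x ∘ j.predAbove)

theorem bp_apply {m : ℕ} (F : BF (Fin (m + 1) → Gam)) (x : Fin m → Gam) :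
    bp m F x = bpl (fun y => F y) x := by
  unfold bp bpl
  rw [_root_.sum_apply, BoundedContinuousFunction.sum_apply]
  rfl

theorem bp_bp {m : ℕ} (F : BF (Fin (m + 2) → Gam)) : bp m (bp (m+1) F) = 0 := by
  ext x
  rw [bp_apply]
  have : (fun y => bp (m+1) F y) = bpl (fun y => F y) := by
    funext y
    rw [bp_apply]
  rw [this, bpl_bpl]
  rfl

theorem NearStep.pull {m : ℕ} {F : (Fin (m + 1) → Gam) → ℂ} (hF : NearStep F) (j : Fin m) :
    NearStep (fun x : Fin m → Gam => F (x ∘ j.predAbove)) := by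
  intro ε hε
  obtain ⟨r, c, hc⟩ := hF ε hε
  exact ⟨r, c, fun x y h => hc _ _ fun i => h _⟩

theorem predAbove_surj {m : ℕ} (j i : Fin m) : ∃ l, j.predAbove l = i := by
  by_cases h : j < i
  · exact ⟨i.succ, Fin.predAbove_succ_of_le _ _ h.le⟩
  · exact ⟨i.castSucc, Fin.predAbove_castSucc_of_le _ _ (not_lt.1 h)⟩

theorem bp_mem {m : ℕ} {F : BF (Fin (m + 1) → Gam)} (hF : F ∈ Wsub (m+1)) : bp m F ∈ Wsub m := by
  unfold bp
  rw [_root_.sum_apply]
  refine Submodule.sum_mem _ fun j _ => ?_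
  rw [_root_.smul_apply]
  refine Submodule.smul_mem _ _ ?_
  refine ⟨hF.1.pull j, ?_⟩
  obtain ⟨S, hS, h⟩ := hF.2
  refine ⟨S, hS, fun x hx i => ?_⟩
  obtain ⟨l, hl⟩ := predAbove_surj j i
  have := h (x ∘ j.predAbove) hx l
  simpa [hl] using this

theorem NearStep_Ep {m : ℕ} (a : Fin m → AA) (s : Finset (Fin m)) :
    NearStep (fun x : Fin m → Gam => ∏ i ∈ s, ((a i).1 (pt (x i)) - (a i).1 pinf)) ∧
    ∃ C, ∀ x : Fin m → Gam, ‖∏ i ∈ s, ((a i).1 (pt (x i)) - (a i).1 pinf)‖ ≤ C := by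
  classical
  induction s using Finset.induction_on with
  | empty =>
    refine ⟨fun ε hε => ⟨1, fun _ => 0, fun x y _ => by simpa using hε.le⟩, 1, fun x => by simp⟩
  | insert i s hi ih =>
    obtain ⟨h1, C, hC⟩ := ih
    simp only [Finset.prod_insert hi]
    have hb : ∀ u : Gam, ‖(a i).1 (pt u) - (a i).1 pinf‖ ≤ ‖(a i).1‖ + ‖(a i).1‖ := fun u =>
      (norm_sub_le _ _).trans (add_le_add ((a i).1.norm_coe_le_norm _) ((a i).1.norm_coe_le_norm _))
    have h2 : NearStep (fun x : Fin m → Gam => (a i).1 (pt (x i)) - (a i).1 pinf) := by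
      intro ε hε
      obtain ⟨r, c, hc⟩ := finite_coloring (fun u => (a i).1 (pt u) - (a i).1 pinf) _ hb ε hε
      exact ⟨r, c, fun x y h => hc _ _ (h i)⟩
    refine ⟨h2.mul h1 (fun x => hb (x i)) hC, (‖(a i).1‖ + ‖(a i).1‖) * C, fun x => ?_⟩
    rw [norm_mul]
    exact mul_le_mul (hb _) (hC x) (norm_nonneg _) (by positivity)

theorem Em_mem {m : ℕ} (a : Fin m → AA) : Em m a ∈ Wsub m := by
  refine ⟨?_, ?_⟩
  · have := (NearStep_Ep a Finset.univ).1
    intro ε hε
    obtain ⟨r, c, hc⟩ := this ε hε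
    refine ⟨r, c, fun x y h => ?_⟩
    simp only [Em_apply]
    exact hc x y h
  · refine ⟨⋃ i, {u : Gam | (a i).1 (pt u) ≠ (a i).1 pinf},
      countable_iUnion fun i => mem_A0.1 (a i).2, ?_⟩
    intro x hx i
    replace hx : Em m a x ≠ 0 := hx
    rw [Em_apply] at hx
    refine mem_iUnion.2 ⟨i, ?_⟩
    intro h
    apply hx
    unfold Ep
    exact Finset.prod_eq_zero (Finset.mem_univ i) (by rw [h, sub_self])

/-- The coefficient space. -/
noncomputable def Xsub (k : ℕ) : Submodule ℂ (BF (Fin (k + 1) → Gam)) :=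
  Wsub (k + 1) ⊓ LinearMap.ker (bp k : BF (Fin (k + 1) → Gam) →ₗ[ℂ] BF (Fin k → Gam))

theorem isClosed_Xsub (k : ℕ) : IsClosed (Xsub k : Set (BF (Fin (k + 1) → Gam))) := by
  have h1 : (Xsub k : Set (BF (Fin (k + 1) → Gam))) =
      (Wsub (k+1) : Set (BF (Fin (k + 1) → Gam))) ∩ (bp k) ⁻¹' {0} := by
    ext x
    simp [Xsub]
  rw [h1]
  exact (isClosed_Wsub _).inter (isClosed_singleton.preimage (bp k).continuous)

instance (k : ℕ) : CompleteSpace (Xsub k) := (isClosed_Xsub k).completeSpace_coe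

/-- The `(k+2)`-cocycle. -/
noncomputable def Psi0 (k : ℕ) :
    ContinuousMultilinearMap ℂ (fun _ : Fin (k + 2) => AA) (BF (Fin (k + 1) → Gam)) :=
  (bp (k+1)).compContinuousMultilinearMap (Em (k + 2))

theorem Psi0_mem (k : ℕ) (a : Fin (k + 2) → AA) : Psi0 k a ∈ Xsub k := by
  refine ⟨bp_mem (Em_mem a), ?_⟩
  exact bp_bp _

end Pool.Agent.H744R2
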