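import Mathlib
import Pool.Agent.H744R2.HochW

set_option autoImplicit false

/-!
# The core argument: the cocycle `Psi0` is not a coboundary
-/

namespace Pool.Agent.H744R2

open Set BoundedContinuousFunction Hoch

/-- The coboundary for the trivial bimodule given by a character `p`. -/
noncomputable def cob {A X : Type} [NormedRing A] [NormedAlgebra ℂ A] [NormedAddCommGroup X]
    [NormedSpace ℂ X] (p : A → ℂ) {n : ℕ} (f : (Fin n → A) → X) : (Fin (n + 1) → A) → X := fun a =>
  p (a 0) • f (Fin.tail a)
    + ∑ i : Fin n, ((-1 : ℂ) ^ ((i : ℕ) + 1)) • f (contract i a)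
    + ((-1 : ℂ) ^ (n + 1)) • p (a (Fin.last n)) • f (Fin.init a)

theorem cob_Em {n : ℕ} (a : Fin (n + 1) → AA) :
    cob chi (fun b => Em n b) a = - bp n (Em (n + 1) a) := by
  ext x
  have h := telescope a x
  have h1 : (bp n (Em (n+1) a)) x = bpl (Ep a) x := by
    rw [bp_apply]
    congr 1
    funext y
    exact Em_apply a y
  have h2 : (cob chi (fun b => Em n b) a) x =
      (a 0).1 pinf * Ep (Fin.tail a) x + (∑ i : Fin n, (-1 : ℂ) ^ ((i : ℕ) + 1) *
        Ep (contract i a) x) + (-1 : ℂ) ^ (n + 1) * ((a (Fin.last n)).1 pinf *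
          Ep (Fin.init a) x) := by
    unfold cob
    simp only [BoundedContinuousFunction.add_apply, BoundedContinuousFunction.sum_apply,
      BoundedContinuousFunction.coe_smul, Em_apply, smul_eq_mul, chi_apply]
  rw [h2, BoundedContinuousFunction.neg_apply, h1]
  linear_combination h

theorem cob_add {A X : Type} [NormedRing A] [NormedAlgebra ℂ A] [NormedAddCommGroup X]
    [NormedSpace ℂ X] (p : A → ℂ) {n : ℕ} (f g : (Fin n → A) → X) (a : Fin (n + 1) → A) :
    cob p (fun b => f b + g b) a = cob p f a + cob p g a := by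
  unfold cob
  simp only [smul_add, Finset.sum_add_distrib]
  abel

theorem cob_map {A X Y : Type} [NormedRing A] [NormedAlgebra ℂ A] [NormedAddCommGroup X]
    [NormedSpace ℂ X] [NormedAddCommGroup Y] [NormedSpace ℂ Y] (p : A → ℂ) {n : ℕ}
    (T : X →L[ℂ] Y) (f : (Fin n → A) → X) (a : Fin (n + 1) → A) :
    cob p (fun b => T (f b)) a = T (cob p f a) := by
  unfold cob
  simp only [map_add, map_sum, map_smul]

/-! ### Push-forwards -/

open Classical in
/-- Extension by zero of a bounded sequence along a map `ι : ℕ → Gam`. -/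
noncomputable def pushFun (ι : ℕ → Gam) (f : LL) : BF Gam1 :=
  BoundedContinuousFunction.ofNormedAddCommGroupDiscrete
    (fun y => if h : ∃ n, pt (ι n) = y then f h.choose else 0) ‖f‖ (fun y => by
      split_ifs with h
      · exact f.norm_coe_le_norm _
      · simp)

open Classical in
theorem pushFun_apply (ι : ℕ → Gam) (f : LL) (y : Gam1) :
    pushFun ι f y = if h : ∃ n, pt (ι n) = y then f h.choose else 0 := rfl

theorem pt_inj {x y : Gam} (h : pt x = pt y) : x = y := Option.some_injective _ h

theorem pt_ne_pinf (x : Gam) : pt x ≠ pinf := fun h => by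
  have : (some x : Option Gam) = none := h
  exact absurd this (by simp)

theorem pushFun_pinf (ι : ℕ → Gam) (f : LL) : pushFun ι f pinf = 0 := by
  rw [pushFun_apply, dif_neg]
  rintro ⟨n, hn⟩
  exact pt_ne_pinf _ hn

theorem pushFun_of_notMem (ι : ℕ → Gam) (f : LL) {y : Gam} (h : ∀ n, ι n ≠ y) :
    pushFun ι f (pt y) = 0 := by
  rw [pushFun_apply, dif_neg]
  rintro ⟨n, hn⟩
  exact h n (pt_inj hn)

theorem pushFun_val {ι : ℕ → Gam} (hι : Function.Injective ι) (f : LL) (n : ℕ) :
    pushFun ι f (pt (ι n)) = f n := by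
  have h : ∃ m, pt (ι m) = pt (ι n) := ⟨n, rfl⟩
  rw [pushFun_apply, dif_pos h]
  congr 1
  exact hι (pt_inj h.choose_spec)

theorem pushFun_mem (ι : ℕ → Gam) (f : LL) : pushFun ι f ∈ A0 := by
  rw [mem_A0]
  refine (countable_range ι).mono ?_
  intro x hx
  by_contra h
  apply hx
  rw [pushFun_pinf]
  exact pushFun_of_notMem ι f fun n hn => h ⟨n, hn⟩

/-- Extension by zero, as a continuous linear map. -/
noncomputable def push (ι : ℕ → Gam) : LL →L[ℂ] AA :=
  LinearMap.mkContinuous
    { toFun := fun f => ⟨pushFun ι f, pushFun_mem ι f⟩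
      map_add' := fun f g => by
        refine Subtype.ext ?_
        ext y
        change pushFun ι (f + g) y = pushFun ι f y + pushFun ι g y
        simp only [pushFun_apply]
        split_ifs <;> simp
      map_smul' := fun c f => by
        refine Subtype.ext ?_
        ext y
        change pushFun ι (c • f) y = c • pushFun ι f y
        simp only [pushFun_apply]
        split_ifs <;> simp } 1 (by
      intro f
      rw [one_mul]
      change ‖pushFun ι f‖ ≤ ‖f‖
      refine (BoundedContinuousFunction.norm_le (norm_nonneg f)).2 fun x => ?_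
      rw [pushFun_apply]
      split_ifs with h
      · exact f.norm_coe_le_norm _
      · simp)

theorem push_apply (ι : ℕ → Gam) (f : LL) : (push ι f).1 = pushFun ι f := rfl

theorem chi_push (ι : ℕ → Gam) (f : LL) : chi (push ι f) = 0 := pushFun_pinf ι f

theorem push_mul_push {ι : ℕ → Gam} (hι : Function.Injective ι) (f g : LL) :
    push ι f * push ι g = push ι (f * g) := by
  refine Subtype.ext ?_
  ext y
  change pushFun ι f y * pushFun ι g y = pushFun ι (f * g) y
  simp only [pushFun_apply]
  split_ifs <;> simp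

theorem push_mul_disj {ι κ : ℕ → Gam} (h : ∀ m n, ι m ≠ κ n) (f g : LL) :
    push ι f * push κ g = 0 := by
  refine Subtype.ext ?_
  ext y
  change pushFun ι f y * pushFun κ g y = 0
  simp only [pushFun_apply]
  split_ifs with h1 h2
  · obtain ⟨m, hm⟩ := h1
    obtain ⟨n, hn⟩ := h2
    exact absurd (pt_inj (hm.trans hn.symm)) (h m n)
  all_goals simp

open Classical in
/-- The indicator function of a point of `Gam`. -/
noncomputable def dl (x : Gam) : AA :=
  ⟨ind {pt x}, by
    rw [mem_A0]
    refine (countable_singleton x).mono ?_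
    intro y hy
    by_contra h
    apply hy
    rw [ind_of_notMem, ind_of_notMem]
    · intro h'
      exact pt_ne_pinf x (mem_singleton_iff.1 h').symm
    · intro h'
      exact h (pt_inj (mem_singleton_iff.1 h'))⟩

theorem push_single {ι : ℕ → Gam} (hι : Function.Injective ι) (n : ℕ) :
    push ι (ind {n}) = dl (ι n) := by
  refine Subtype.ext ?_
  ext y
  change pushFun ι (ind {n}) y = ind {pt (ι n)} y
  by_cases h : ∃ m, pt (ι m) = y
  · obtain ⟨m, rfl⟩ := h
    rw [pushFun_val hι]
    by_cases hmn : m = n
    · subst hmn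
      rw [ind_of_mem (mem_singleton _), ind_of_mem (mem_singleton _)]
    · rw [ind_of_notMem, ind_of_notMem]
      · intro h'
        exact hmn (hι (pt_inj (mem_singleton_iff.1 h')))
      · simpa using hmn
  · rw [pushFun_apply, dif_neg h, ind_of_notMem]
    intro h'
    exact h ⟨n, (mem_singleton_iff.1 h').symm⟩

/-! ### The hypothetical bounding cochain -/

section

variable {k : ℕ} (g : ContinuousMultilinearMap ℂ (fun _ : Fin (k + 2) => AA) (Xsub (k+1)))

/-- The cochain `Em + g`. -/
noncomputable def phi : ContinuousMultilinearMap ℂ (fun _ : Fin (k + 2) => AA)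
    (BF (Fin (k + 2) → Gam)) :=
  Em (k + 2) + (Xsub (k+1)).subtypeL.compContinuousMultilinearMap g

theorem phi_apply (a : Fin (k + 2) → AA) : phi g a = Em (k+2) a + (g a : BF (Fin (k+2) → Gam)) :=
  rfl

theorem phi_mem (a : Fin (k + 2) → AA) : phi g a ∈ Wsub (k+2) := by
  rw [phi_apply]
  exact Submodule.add_mem _ (Em_mem a) (g a).2.1

theorem bp_phi (a : Fin (k + 2) → AA) : bp (k+1) (phi g a) = bp (k+1) (Em (k+2) a) := by
  rw [phi_apply, map_add]
  have : bp (k+1) (g a : BF (Fin (k+2) → Gam)) = 0 := (g a).2.2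
  rw [this, add_zero]

variable (hg : ∀ a : Fin (k + 3) → AA, ((cob chi (fun b => g b) a : Xsub (k+1)) :
  BF (Fin (k+2) → Gam)) = Psi0 (k+1) a)
include hg

theorem cob_phi (a : Fin (k + 3) → AA) : cob chi (fun b => phi g b) a = 0 := by
  have h1 : (fun b => phi g b) = fun b => Em (k+2) b + (Xsub (k+1)).subtypeL (g b) := rfl
  rw [h1, cob_add, cob_Em, cob_map]
  have h2 : (Xsub (k+1)).subtypeL (cob chi (fun b => g b) a) = Psi0 (k+1) a := hg a
  rw [h2]
  change - bp (k+2) (Em (k+3) a) + bp (k+2) (Em (k+3) a) = 0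
  simp

theorem phi_unit (b : Fin (k + 3) → AA) (hb : ∀ i, chi (b i) = 0)
    (hb2 : ∀ i : Fin (k+1), b i.succ.castSucc * b i.succ.succ = 0) :
    phi g (contract 0 b) = 0 := by
  have h := cob_phi g hg b
  unfold cob at h
  rw [hb, hb, zero_smul, zero_smul, smul_zero, zero_add, add_zero, Fin.sum_univ_succ] at h
  have h2 : ∑ i : Fin (k+1), ((-1 : ℂ) ^ ((i.succ : ℕ) + 1)) • phi g (contract i.succ b) = 0 := by
    refine Finset.sum_eq_zero fun i _ => ?_
    have : phi g (contract i.succ b) = 0 := by
      refine (phi g).map_coord_zero i.succ ?_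
      unfold contract
      rw [if_neg (lt_irrefl _), if_pos rfl]
      exact hb2 i
    rw [this, smul_zero]
  rw [h2, add_zero] at h
  simpa using h

variable (ι : Fin (k+1) → ℕ → Gam) (hι : ∀ j, Function.Injective (ι j))
  (hblk : ∀ (j : Fin (k+1)) n, ι j n ∈ blk j)

/-- The restricted splitting. -/
noncomputable def Rm : ContinuousMultilinearMap ℂ (fun _ : Fin (k + 1) => LL)
    (BF (Fin (k + 2) → Gam)) :=
  ((phi g).curryLeft (push (ι 0) 1)).compContinuousLinearMap (fun j => push (ι j))

omit hg in
theorem Rm_apply (f : Fin (k + 1) → LL) :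
    Rm g ι f = phi g (Fin.cons (push (ι 0) 1) (fun j => push (ι j) (f j))) := rfl

include hι hblk in
theorem Rm_single (m : Fin (k+1) → ℕ) :
    Rm g ι (fun j => ind {m j}) =
      phi g (Fin.cons (dl (ι 0 (m 0))) (fun j => dl (ι j (m j)))) := by
  rw [Rm_apply]
  have h1 : (fun j => push (ι j) (ind {m j})) = fun j => dl (ι j (m j)) := by
    funext j
    exact push_single (hι j) (m j)
  rw [h1]
  have h2 : push (ι 0) 1 = push (ι 0) (1 - ind {m 0}) + dl (ι 0 (m 0)) := by
    rw [← push_single (hι 0), ← map_add]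
    congr 1
    abel
  rw [h2, (phi g).cons_add]
  have h3 : phi g (Fin.cons (push (ι 0) (1 - ind {m 0})) (fun j => dl (ι j (m j)))) = 0 := by
    have h4 := phi_unit g hg (Fin.cons (push (ι 0) 1) (Fin.cons (push (ι 0) (1 - ind {m 0}))
      (fun j => dl (ι j (m j))))) ?_ ?_
    · rw [contract_zero] at h4
      have e1 : (Fin.cons (push (ι 0) 1) (Fin.cons (push (ι 0) (1 - ind {m 0}))
        (fun j => dl (ι j (m j)))) : Fin (k+3) → AA) 0 = push (ι 0) 1 := rfl
      have e2 : (Fin.cons (push (ι 0) 1) (Fin.cons (push (ι 0) (1 - ind {m 0}))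
        (fun j => dl (ι j (m j)))) : Fin (k+3) → AA) 1 = push (ι 0) (1 - ind {m 0}) := rfl
      rw [e1, e2, push_mul_push (hι 0), one_mul] at h4
      simpa using h4
    · intro i
      refine Fin.cases ?_ (fun i => ?_) i
      · exact chi_push _ _
      · refine Fin.cases ?_ (fun i => ?_) i
        · exact chi_push _ _
        · simp only [Fin.cons_succ]
          rw [← push_single (hι i)]
          exact chi_push _ _
    · intro i
      rw [← h1]
      refine Fin.cases ?_ (fun i => ?_) i
      · change push (ι 0) (1 - ind {m 0}) * push (ι 0) (ind {m 0}) = 0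
        rw [push_mul_push (hι 0)]
        have : (1 - ind {m 0} : LL) * ind {m 0} = 0 := by
          ext y
          simp only [BoundedContinuousFunction.mul_apply, BoundedContinuousFunction.sub_apply,
            BoundedContinuousFunction.coe_one, Pi.one_apply, BoundedContinuousFunction.coe_zero,
            Pi.zero_apply]
          by_cases hy : y ∈ ({m 0} : Set ℕ)
          · rw [ind_of_mem hy]; ring
          · rw [ind_of_notMem hy]; ring
        rw [this, map_zero]
      · change push (ι i.castSucc) (ind {m i.castSucc}) * push (ι i.succ) (ind {m i.succ}) = 0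
        refine push_mul_disj ?_ _ _
        intro p q hpq
        have h5 := hblk i.castSucc p
        have h6 := hblk i.succ q
        rw [hpq] at h5
        have h7 : ((i.castSucc : Fin (k+1)) : ℕ) = ((i.succ : Fin (k+1)) : ℕ) :=
          (h5 : _ = _).symm.trans h6
        simp at h7
  rw [h3, zero_add]

end

end Pool.Agent.H744R2
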