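import Mathlib
import Pool.Agent.H744R2.HochCore

set_option autoImplicit false

/-!
# The contradiction
-/

namespace Pool.Agent.H744R2

open Set BoundedContinuousFunction Hoch

/-- The point with the `j`-th coordinate doubled and its second copy moved. -/
def zpt {k : ℕ} (y : Fin (k+1) → Gam) (j : Fin (k+1)) (u : Gam) : Fin (k+2) → Gam :=
  Function.update (y ∘ j.predAbove) j.succ u

theorem zpt_succ {k : ℕ} (y : Fin (k+1) → Gam) (j : Fin (k+1)) (u : Gam) :
    zpt y j u j.succ = u := by simp [zpt]

theorem zpt_castSucc {k : ℕ} (y : Fin (k+1) → Gam) (j : Fin (k+1)) (u : Gam) :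
    zpt y j u j.castSucc = y j := by
  unfold zpt
  rw [Function.update_of_ne]
  · simp
  · intro h
    have := congrArg Fin.val h
    simp at this

theorem no_bounding {k : ℕ} (g : ContinuousMultilinearMap ℂ (fun _ : Fin (k + 2) => AA)
    (Xsub (k+1)))
    (hg : ∀ a : Fin (k + 3) → AA, ((cob chi (fun b => g b) a : Xsub (k+1)) :
      BF (Fin (k+2) → Gam)) = Psi0 (k+1) a) : False := by
  classical
  -- supports
  have hsupp : ∀ m : Fin (k+1) → Gam, ∃ S : Set Gam, S.Countable ∧ ∀ x : Fin (k+2) → Gam,
      phi g (Fin.cons (dl (m 0)) (fun j => dl (m j))) x ≠ 0 → ∀ i, x i ∈ S :=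
    fun m => (phi_mem g _).2
  choose S hS hS2 using hsupp
  obtain ⟨ι, hι, hblk, hfree⟩ := exists_free_blk (k+1) S hS
  -- the functionals
  let lam : ((Fin (k+1) → ℕ) × Fin (k+1) × ℕ) →
      ContinuousMultilinearMap ℂ (fun _ : Fin (k+1) => LL) ℂ := fun c =>
    if c.2.2 = c.1 c.2.1 then 0 else
      (evalCLM ℂ (zpt (fun i => ι i (c.1 i)) c.2.1 (ι c.2.1 c.2.2))).compContinuousMultilinearMap
        (Rm g ι)
  have hlam0 : ∀ c, ∀ m : Fin (k+1) → ℕ, lam c (fun i => ind {m i}) = 0 := by
    rintro ⟨x, j, t⟩ m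
    by_cases h : t = x j
    · simp only [lam]
      rw [if_pos h]
      rfl
    · simp only [lam]
      rw [if_neg h]
      change (Rm g ι (fun i => ind {m i})) (zpt (fun i => ι i (x i)) j (ι j t)) = 0
      rw [Rm_single g hg ι hι hblk]
      by_contra hne
      have h1 := hS2 (fun i => ι i (m i)) _ hne
      by_cases ht : t = m j
      · have h2 := h1 j.castSucc
        rw [zpt_castSucc] at h2
        refine hfree m j (x j) ?_ h2
        intro h3
        exact h (ht.trans h3.symm)
      · have h2 := h1 j.succ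
        rw [zpt_succ] at h2
        exact hfree m j t ht h2
  obtain ⟨α, hα⟩ := exists_branches (k+1) lam hlam0
  -- the final function
  let f : Fin (k+1) → LL := fun j => ind (branch (α j))
  let a : Fin (k+2) → AA := Fin.cons (push (ι 0) 1) (fun j => push (ι j) (f j))
  let D : BF (Fin (k+2) → Gam) := phi g a
  have hD0 : ∀ (x : Fin (k+1) → ℕ) (j : Fin (k+1)) (t : ℕ), t ≠ x j →
      D (zpt (fun i => ι i (x i)) j (ι j t)) = 0 := by
    intro x j t h
    have := hα (x, j, t)
    simp only [lam] at this
    rw [if_neg h] at this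
    exact this
  -- colouring
  have hε : (0 : ℝ) < 1 / ((k : ℝ) + 2) := by positivity
  obtain ⟨r, c, hc⟩ := (phi_mem g a).1 (1 / ((k : ℝ) + 2)) hε
  have hpair : ∀ j : Fin (k+1), ∃ s ∈ branch (α j), ∃ t ∈ branch (α j), s ≠ t ∧
      c (ι j s) = c (ι j t) := fun j =>
    (branch_infinite (α j)).exists_ne_map_eq_of_mapsTo (f := fun n => c (ι j n))
      (t := univ) (fun _ _ => mem_univ _) finite_univ
  choose s hs t ht hst hcst using hpair
  let y : Fin (k+1) → Gam := fun i => ι i (s i)
  -- estimate
  have hest : ∀ j : Fin (k+1), ‖D (y ∘ j.predAbove)‖ ≤ 1 / ((k : ℝ) + 2) := by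
    intro j
    have h1 := hc (y ∘ j.predAbove) (zpt y j (ι j (t j))) (by
      intro i
      unfold zpt
      by_cases h : i = j.succ
      · subst h
        simp only [Function.update_self, Function.comp_apply]
        rw [Fin.predAbove_succ_self]
        exact hcst j
      · rw [Function.update_of_ne h])
    have h2 : D (zpt y j (ι j (t j))) = 0 := hD0 s j (t j) (hst j).symm
    change ‖D (y ∘ j.predAbove) - D (zpt y j (ι j (t j)))‖ ≤ _ at h1
    rw [h2, sub_zero] at h1
    exact h1
  -- the value of `b' D`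
  have hval : bp (k+1) D y = 1 := by
    change bp (k+1) (phi g a) y = 1
    rw [bp_phi, bp_apply]
    have e1 : (fun z => Em (k+2) a z) = Ep a := by
      funext z
      exact Em_apply a z
    rw [e1]
    unfold bpl
    rw [Fin.sum_univ_succ, Finset.sum_eq_zero, add_zero]
    · rw [comp_predAbove_zero]
      change (-1 : ℂ) ^ 0 * Ep (Fin.cons (push (ι 0) 1) (fun j => push (ι j) (f j)))
        (Fin.cons (y 0) y) = 1
      rw [Ep_cons]
      unfold Ep
      have e2 : ∀ i, (push (ι i) (f i)).1 (pt (y i)) - (push (ι i) (f i)).1 pinf = 1 := by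
        intro i
        rw [push_apply, pushFun_pinf, sub_zero]
        change pushFun (ι i) (f i) (pt (ι i (s i))) = 1
        rw [pushFun_val (hι i)]
        exact ind_of_mem (hs i)
      have e3 : (push (ι 0) 1).1 (pt (y 0)) - (push (ι 0) 1).1 pinf = 1 := by
        rw [push_apply, pushFun_pinf, sub_zero]
        change pushFun (ι 0) 1 (pt (ι 0 (s 0))) = 1
        rw [pushFun_val (hι 0)]
        rfl
      rw [e3]
      simp only [e2]
      simp
    · intro j _
      have e4 : Ep a (y ∘ (j.succ : Fin (k+1)).predAbove) = 0 := by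
        unfold Ep
        refine Finset.prod_eq_zero (Finset.mem_univ (j.castSucc.succ : Fin (k+2))) ?_
        have e5 : a j.castSucc.succ = push (ι j.castSucc) (f j.castSucc) := rfl
        have e6 : (y ∘ (j.succ : Fin (k+1)).predAbove) j.castSucc.succ = y j.succ := by
          rw [Function.comp_apply]
          congr 1
          rw [Fin.succ_castSucc]
          exact Fin.predAbove_castSucc_self _
        rw [e5, e6, push_apply, pushFun_pinf, sub_zero, pushFun_of_notMem]
        intro n hn
        have h5 := hblk j.castSucc n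
        have h6 := hblk j.succ (s j.succ)
        rw [hn] at h5
        have h7 : ((j.castSucc : Fin (k+1)) : ℕ) = ((j.succ : Fin (k+1)) : ℕ) :=
          (h5 : _ = _).symm.trans h6
        simp at h7
      rw [e4, mul_zero]
  have hfin : (1 : ℝ) ≤ ((k : ℝ) + 1) * (1 / ((k : ℝ) + 2)) := by
    have h1 : ‖bp (k+1) D y‖ ≤ ∑ j : Fin (k+1), ‖D (y ∘ j.predAbove)‖ := by
      rw [bp_apply]
      unfold bpl
      refine (norm_sum_le _ _).trans (Finset.sum_le_sum fun j _ => ?_)
      rw [norm_mul, norm_pow, norm_neg, norm_one, one_pow, one_mul]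
    rw [hval, norm_one] at h1
    refine h1.trans ?_
    refine (Finset.sum_le_sum fun j _ => hest j).trans ?_
    rw [Finset.sum_const, Finset.card_univ, Fintype.card_fin, nsmul_eq_mul]
    push_cast
    exact le_rfl
  have h2 : (0 : ℝ) < (k : ℝ) + 2 := by positivity
  rw [mul_one_div, le_div_iff₀ h2] at hfin
  linarith

end Pool.Agent.H744R2
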