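import Mathlib
import Pool.Agent.H744R2.HochContra

set_option autoImplicit false

/-!
# Transport to `C(Ω)`
-/

namespace Pool.Agent.H744R2

open Set Hoch WeakDual

/-- The trivial (annihilator-type) bimodule `a · x = p(a) x = x · a` given by a character `p`. -/
noncomputable def trivB {A : Type} [NormedRing A] [NormedAlgebra ℂ A] (p : A →L[ℂ] ℂ)
    (hp : ∀ a b, p (a * b) = p a * p b) (X : Type) [NormedAddCommGroup X] [NormedSpace ℂ X] :
    BanachBimodule A X where
  lact := p.smulRight (ContinuousLinearMap.id ℂ X)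
  ract := p.smulRight (ContinuousLinearMap.id ℂ X)
  lact_mul := by
    intro a b x
    simp only [ContinuousLinearMap.smulRight_apply, _root_.smul_apply,
      ContinuousLinearMap.id_apply, hp, mul_smul]
  ract_mul := by
    intro a b x
    simp only [ContinuousLinearMap.smulRight_apply, _root_.smul_apply,
      ContinuousLinearMap.id_apply, hp]
    rw [smul_smul, mul_comm]
  lact_ract := by
    intro a b x
    simp only [ContinuousLinearMap.smulRight_apply, _root_.smul_apply,
      ContinuousLinearMap.id_apply]
    rw [smul_comm]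

theorem trivB_coboundary {A : Type} [NormedRing A] [NormedAlgebra ℂ A] (p : A →L[ℂ] ℂ)
    (hp : ∀ a b, p (a * b) = p a * p b) (X : Type) [NormedAddCommGroup X] [NormedSpace ℂ X]
    {n : ℕ} (f : (Fin n → A) → X) : (trivB p hp X).coboundary f = cob p f := rfl

theorem contract_comp {A B : Type} [NormedRing A] [NormedRing B] (u : A → B)
    (hu : ∀ a b, u (a * b) = u a * u b) {n : ℕ} (i : Fin n) (a : Fin (n+1) → A) :
    contract i (fun j => u (a j)) = fun j => u (contract i a j) := by
  funext j
  unfold contract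
  split_ifs
  · rfl
  · rw [hu]
  · rfl

theorem cob_comp {A B X : Type} [NormedRing A] [NormedAlgebra ℂ A] [NormedRing B]
    [NormedAlgebra ℂ B] [NormedAddCommGroup X] [NormedSpace ℂ X] (u : A → B)
    (hu : ∀ a b, u (a * b) = u a * u b) (p : B → ℂ) {n : ℕ} (f : (Fin n → B) → X)
    (a : Fin (n+1) → A) :
    cob (fun x => p (u x)) (fun b => f (fun j => u (b j))) a = cob p f (fun j => u (a j)) := by
  unfold cob
  simp only [contract_comp u hu]
  rfl

/-- The compact Hausdorff space. -/
abbrev Om : Type := characterSpace ℂ AA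

/-- The Gelfand isomorphism. -/
noncomputable def gel : AA ≃⋆ₐ[ℂ] C(Om, ℂ) := gelfandStarTransform AA

theorem gel_norm (a : AA) : ‖gel a‖ = ‖a‖ :=
  (gelfandTransform_isometry AA).norm_map_of_map_zero (map_zero _) a

/-- `AA → C(Ω)` -/
noncomputable def gA : AA →L[ℂ] C(Om, ℂ) :=
  LinearMap.mkContinuous
    { toFun := fun a => gel a
      map_add' := fun a b => map_add gel a b
      map_smul' := fun c a => map_smul gel c a } 1 (fun a => by
        rw [one_mul]; exact (gel_norm a).le)

/-- `C(Ω) → AA` -/
noncomputable def gB : C(Om, ℂ) →L[ℂ] AA :=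
  LinearMap.mkContinuous
    { toFun := fun a => gel.symm a
      map_add' := fun a b => map_add gel.symm a b
      map_smul' := fun c a => map_smul gel.symm c a } 1 (fun a => by
        rw [one_mul]
        have := gel_norm (gel.symm a)
        rw [StarAlgEquiv.apply_symm_apply] at this
        exact this.symm.le)

theorem gA_mul (a b : AA) : gA (a * b) = gA a * gA b := map_mul gel a b
theorem gB_mul (a b : C(Om, ℂ)) : gB (a * b) = gB a * gB b := map_mul gel.symm a b
theorem gB_one : gB 1 = 1 := map_one gel.symm
theorem gB_gA (a : AA) : gB (gA a) = a := gel.symm_apply_apply a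

/-- The character of `C(Ω)`. -/
noncomputable def chiC : C(Om, ℂ) →L[ℂ] ℂ := chi.comp gB

theorem chiC_mul (a b : C(Om, ℂ)) : chiC (a * b) = chiC a * chiC b := by
  change chi (gB (a * b)) = chi (gB a) * chi (gB b)
  rw [gB_mul, chi_mul]

/-- The cocycle with values in the coefficient module. -/
noncomputable def PsiX (k : ℕ) :
    ContinuousMultilinearMap ℂ (fun _ : Fin (k + 2) => AA) (Xsub k) :=
  (Psi0 k).codRestrict (Xsub k) (Psi0_mem k)

theorem PsiX_coe (k : ℕ) (a : Fin (k + 2) → AA) :
    ((PsiX k a : Xsub k) : BF (Fin (k+1) → Gam)) = Psi0 k a := rfl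

theorem cob_PsiX (k : ℕ) (a : Fin (k + 3) → AA) : cob chi (fun b => PsiX k b) a = 0 := by
  have h1 : (Xsub k).subtypeL (cob chi (fun b => PsiX k b) a) = 0 := by
    rw [← cob_map]
    have h2 : (fun b => (Xsub k).subtypeL (PsiX k b)) = fun b => bp (k+1) (Em (k+2) b) := rfl
    rw [h2, cob_map, cob_Em, map_neg, bp_bp, neg_zero]
  exact Subtype.ext h1

/-- The main statement: for `n = k + 3` the cohomology of `C(Ω)` with coefficients in a symmetric
module does not vanish. -/
theorem not_vanishes (k : ℕ) :
    ¬ (trivB chiC chiC_mul (Xsub (k+1))).CohomologyVanishes (k + 3) := by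
  intro h
  obtain ⟨g, hg⟩ := h ((PsiX (k+1)).compContinuousLinearMap (fun _ => gB)) (by
    funext a
    rw [trivB_coboundary]
    have h1 := cob_comp (X := Xsub (k+1)) (fun x => gB x) gB_mul chi (fun b => PsiX (k+1) b) a
    change cob chiC (fun b => PsiX (k+1) (fun j => gB (b j))) a = 0
    have h2 : (fun x => chi (gB x)) = chiC := rfl
    rw [h2] at h1
    rw [h1, cob_PsiX])
  refine no_bounding (k := k) (g.compContinuousLinearMap (fun _ => gA)) ?_
  intro a
  have h1 := congrFun hg (fun j => gA (a j))
  rw [trivB_coboundary] at h1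
  have h2 := cob_comp (X := Xsub (k+1)) (fun x => gA x) gA_mul chiC (fun b => g b) a
  have h3 : (fun x => chiC (gA x)) = chi := by
    funext x
    change chi (gB (gA x)) = chi x
    rw [gB_gA]
  rw [h3, h1] at h2
  have h4 : (fun b : Fin (k+2) → AA => (g.compContinuousLinearMap (fun _ => gA)) b) =
      fun b => g (fun j => gA (b j)) := rfl
  rw [h4, h2]
  change ((PsiX (k+1) (fun j => gB (gA (a j))) : Xsub (k+1)) : BF (Fin (k+2) → Gam)) = _
  simp only [gB_gA]
  rfl

end Pool.Agent.H744R2
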